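import Pool.Agent.N211.TP3.Defs

/-!
# The products `X ^ (n + 1) × A`: definitions
-/

open CategoryTheory AlgebraicGeometry

universe u

namespace Pool.Agent.N211.TP4

open Pool.Agent.H914 Pool.Agent.H914.VarClass Pool.Agent.H914.VarClass.Obj
open Pool.Agent.Y121.AHS Pool.Agent.N211.TP2
open Pool.Agent.Y133.Half (pw)

/-- The data on the cohomology `H`, `H'` and `P` of two varieties and of their product. -/
structure ProdOps (H H' P : Type) where
  /-- the classes of degree `i` on the first variety -/
  deg : ℕ → H → Prop
  /-- the classes of degree `i` on the second variety -/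
  deg' : ℕ → H' → Prop
  /-- the classes of degree `i` on the product -/
  degP : ℕ → P → Prop
  /-- the unit -/
  one : H'
  /-- the external product -/
  ext : H → H' → P
  /-- the classes of the algebraic cycles of codimension `j` on the product -/
  cyc : ℕ → Set P

/-- The dimension. -/
noncomputable def rk {K B : Type} [Field K] [Ring B] [Algebra K B] (V : Submodule K B) : ℕ :=
  Module.finrank K V

section Generic

variable {E Γ V : Type} [Field E] [Group Γ] [TopologicalSpace Γ] [AddCommGroup V] [Module E V]

/-- The subgroup is open and of finite index, and its elements `g` satisfy `a g • σ g x = b g • x`. -/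
def IsEigen (Δ : Subgroup Γ) (a b : Γ → E) (σ : Γ → V → V) (x : V) : Prop :=
  Δ.FiniteIndex ∧ IsOpen (Δ : Set Γ) ∧ ∀ g ∈ Δ, a g • σ g x = b g • x

/-- The maps are linear. -/
def ActsLinearly (E : Type) {Γ V : Type} [Field E] [AddCommGroup V] [Module E V]
    (σ : Γ → V → V) : Prop :=
  ∀ g, (∀ x y, σ g (x + y) = σ g x + σ g y) ∧ ∀ (c : E) x, σ g (c • x) = c • σ g x

variable {H H' P : Type} (O : ProdOps H H' P) [AddCommGroup H] [Module E H] [AddCommGroup H']
  [Module E H'] [AddCommGroup P] [Module E P]

variable (E) in
/-- The linear maps `σ g` and `σP g` on the cohomology of the second variety and of the product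
respect the external products with the unit and the action on the cohomology of the first variety.
Every line in the cohomology of the first variety which is stable under an open subgroup `Δ` of
finite index has a dual line in the cohomology of the second variety, up to a Tate twist and for an
open subgroup of finite index. -/
structure HasDualLines (χ : Γ → E) (ρ : Γ → H → H) (σ : Γ → H' → H') (σP : Γ → P → P) : Prop where
  lin : ActsLinearly E σ
  linP : ActsLinearly E σP
  one : ∀ g, σ g O.one = O.one
  ext : ∀ g x y, σP g (O.ext x y) = O.ext (ρ g x) (σ g y)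
  line : ∀ (Δ : Subgroup Γ) (c : Γ → E) (d : ℕ) (x : H), x ≠ 0 → O.deg d x →
    IsEigen Δ (fun _ => 1) c ρ x → ∃ (D : Subgroup Γ) (m d' : ℕ) (y : H'), y ≠ 0 ∧ O.deg' d' y ∧
      d + d' = 2 * m ∧ IsEigen D c (fun g => χ g ^ m) σ y

/-- The Tate conjecture for the product, over all finite extensions of the base field: the classes
which are invariant, after a Tate twist, under an open subgroup of finite index are the linear
combinations with coefficients in `E` of the classes of algebraic cycles. -/
def TateForProduct (χ : Γ → E) (σP : Γ → P → P) : Prop :=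
  ∀ j x, O.degP (2 * j) x → ((∃ Δ, IsEigen Δ (fun _ => 1) (fun g => χ g ^ j) σP x) ↔
    x ∈ Submodule.span E (O.cyc j))

end Generic

variable {k : Type u} [Field k] {𝒱 : VarClass k} {ops : CycleOps 𝒱} (T : HodgeTheory ops)
  (E : Type) [Field E] [Algebra T.W.K E] (X A : 𝒱.Obj) (n : ℕ)

/-- The cohomology of `X ^ (n + 1) × A` with coefficients in `E`. -/
def ProdH : Type := HL T.W E ((pw X n).prod A)

noncomputable instance instAdd : AddCommGroup (ProdH T E X A n) :=
  instAddHL T.W E ((pw X n).prod A)

noncomputable instance instMod : Module E (ProdH T E X A n) :=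
  instModHL T.W E ((pw X n).prod A)

/-- The data for `X ^ (n + 1)` and `A`. -/
noncomputable def prodOps : ProdOps (PowH T E X n) (PowH T E A 0) (ProdH T E X A n) where
  deg i := vmem (grL T.W E (pw X n) i)
  deg' i := vmem (grL T.W E A i)
  degP i := vmem (grL T.W E ((pw X n).prod A) i)
  one := emL T.W E (X := A) 1
  ext x y := mulL (mapL (Y := pw X n) (fst (pw X n) A) x) (mapL (Y := A) (snd (pw X n) A) y)
  cyc j := {x | ∃ z, ((pw X n).prod A).IsCyc j z ∧ x = emL T.W E (clc T.W z)}

end Pool.Agent.N211.TP4
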