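import Pool.Agent.N211.TP4.Defs
import Pool.Agent.N211.TP2.Main
import Pool.Agent.N211.MO.SSMain

/-!
# Semisimplicity from the Tate conjecture for one product
-/

set_option linter.unusedSectionVars false

open CategoryTheory AlgebraicGeometry

universe u

namespace Pool.Agent.N211.TP4

open Module
open Pool.Agent.H914 Pool.Agent.H914.VarClass Pool.Agent.H914.VarClass.Obj
  Pool.Agent.H914.WeilCohomology
open Pool.Agent.Y121.AHS Pool.Agent.N211.TP2 Pool.Agent.N211.TP3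
open Pool.Agent.Y133.Half (pw)

variable {k : Type u} [Field k] {𝒱 : VarClass k} {ops : CycleOps 𝒱}
  {T : HodgeTheory ops} {E : Type} [Field E] [Algebra T.W.K E] {X A : 𝒱.Obj} {n : ℕ}
  {Γ : Type} [Group Γ] [TopologicalSpace Γ] {ψ : Bil T.W.K (T.W.H X)} {χ : Γ → E}
  {ρ : ∀ n, Γ → PowH T E X n → PowH T E X n} {σA : Γ → PowH T E A 0 → PowH T E A 0}
  {σP : Γ → ProdH T E X A n → ProdH T E X A n}

/-- The linear maps. -/
noncomputable def lA (hP : HasDualLines E (prodOps T E X A n) χ (ρ n) σA σP) (g : Γ) :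
    HL T.W E A →ₗ[E] HL T.W E A where
  toFun x := (σA g x : PowH T E A 0)
  map_add' x y := (hP.lin g).1 x y
  map_smul' c x := (hP.lin g).2 c x

/-- The linear maps. -/
noncomputable def lP (hP : HasDualLines E (prodOps T E X A n) χ (ρ n) σA σP) (g : Γ) :
    HL T.W E ((pw X n).prod A) →ₗ[E] HL T.W E ((pw X n).prod A) where
  toFun x := (σP g x : ProdH T E X A n)
  map_add' x y := (hP.linP g).1 x y
  map_smul' c x := (hP.linP g).2 c x

/-- The open subgroups of finite index. -/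
def OF (Δ : Subgroup Γ) : Prop := Δ.FiniteIndex ∧ IsOpen (Δ : Set Γ)

lemma isEigen_one {V : Type} [AddCommGroup V] [Module E V] {Δ : Subgroup Γ} {b : Γ → E}
    {σ : Γ → V → V} {x : V} : IsEigen Δ (fun _ => 1) b σ x ↔
      Δ.FiniteIndex ∧ IsOpen (Δ : Set Γ) ∧ ∀ g ∈ Δ, σ g x = b g • x := by
  rw [IsEigen]
  refine and_congr_right fun _ => and_congr_right fun _ => forall₂_congr fun g _ => ?_
  rw [one_smul]

lemma setup {h : IsGalois (cohOps T E ψ) χ ρ}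
    {hf : ∀ n j z, (pw X n).IsCyc j z → ∃ Δ : Subgroup Γ, Δ.FiniteIndex ∧ ∀ g ∈ Δ,
      rep h n g (emL T.W E (T.W.cl (pw X n) z)) = twL (χ g) j (emL T.W E (T.W.cl (pw X n) z))}
    (hP : HasDualLines E (prodOps T E X A n) χ (ρ n) σA σP)
    (hT : TateForProduct (prodOps T E X A n) χ σP) :
    MO.Setup (toG h hf) A n (lA hP) (lP hP) OF
      fun j => {c | ∃ z, ((pw X n).prod A).IsCyc j z ∧ T.W.cl _ z = c} where
  inf D D' hD hD' := by
    have := hD.1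
    have := hD'.1
    exact ⟨inferInstance, hD.2.inter hD'.2⟩
  fin D hD := hD.1
  xp g x y := hP.ext g x y
  hodge := by
    rintro j _ ⟨z, hz, rfl⟩
    exact T.cyc _ j z hz
  cyc := by
    rintro j _ ⟨z, hz, rfl⟩
    have h1 : (prodOps T E X A n).degP (2 * j) (emL T.W E (clc T.W z)) :=
      BT.emL_deg (T.W.cl_mem hz)
    obtain ⟨D, h2⟩ := (hT j _ h1).2 (Submodule.subset_span ⟨z, hz, rfl⟩)
    obtain ⟨h2, h3, h4⟩ := isEigen_one.1 h2
    exact ⟨D, ⟨h2, h3⟩, h4⟩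
  tate := by
    rintro j z hz ⟨D, hD, h1⟩
    have h2 : z ∈ Submodule.span E ((prodOps T E X A n).cyc j) :=
      (hT j z hz).1 ⟨D, isEigen_one.2 ⟨hD.1, hD.2, h1⟩⟩
    refine Submodule.span_mono ?_ h2
    rintro _ ⟨z, hz, rfl⟩
    exact ⟨_, ⟨z, hz, rfl⟩, rfl⟩
  line := by
    rintro Δ hΔ c d x hx hd hst
    obtain ⟨D, m, d', y, h1, h2, h3, h4, h5, h6⟩ := hP.line Δ c d x hx hd
      (isEigen_one.2 ⟨hΔ.1, hΔ.2, hst⟩)
    exact ⟨y, d', m, D, h1, h2, h3, ⟨h4, h5⟩, h6⟩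

/-- **Semisimplicity from the Tate conjecture for one product.** -/
theorem main (hψ : IsPolarisation T X ψ) (hE : Nonempty (E →+* ℂ))
    (hG : IsGalois (cohOps T E ψ) χ ρ)
    (hC : ∀ m j, ∀ x ∈ cycClasses T E X m j, IsTate (cohOps T E ψ) χ ρ j x)
    (hP : HasDualLines E (prodOps T E X A n) χ (ρ n) σA σP)
    (hT : TateForProduct (prodOps T E X A n) χ σP)
    {m i : ℕ} (hn : (m + 1) * rk (T.W.gr (pw X m) i) ≤ n + 1)
    (Δ : Subgroup Γ) (hΔ : Δ.FiniteIndex) (hΔ' : IsOpen (Δ : Set Γ)) :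
    IsSemisimple (cohOps T E ψ) ρ Δ m i := by
  have hf : ∀ n j z, (pw X n).IsCyc j z → ∃ Δ : Subgroup Γ, Δ.FiniteIndex ∧ ∀ g ∈ Δ,
      rep hG n g (emL T.W E (T.W.cl (pw X n) z)) =
        twL (χ g) j (emL T.W E (T.W.cl (pw X n) z)) := by
    intro n j z hz
    obtain ⟨Δ, h1, -, h2⟩ := hC n j (emL T.W E (T.W.cl (pw X n) z)) ⟨z, hz, rfl⟩
    exact ⟨Δ, h1, fun g hg => h2 g hg⟩
  let _ : TopologicalSpace E := ⊥
  refine (ss_iff (h := hG) (hf := hf)).2 ?_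
  exact MO.ss_main hψ.conv respects hE (setup hP hT) ⟨hΔ, hΔ'⟩ (by rw [mul_comm]; exact hn)

end Pool.Agent.N211.TP4
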