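import Pool.Agent.N211.TP4.Opens
import Pool.Agent.N211.TP4.Main
import Pool.Agent.N211.MO.Desc

/-!
# The Tate conjecture for the open subvarieties of the powers from one product
-/

set_option linter.unusedSectionVars false

open CategoryTheory AlgebraicGeometry

universe u

namespace Pool.Agent.N211.TP4

open Module
open Pool.Agent.H914 Pool.Agent.H914.VarClass Pool.Agent.H914.VarClass.Obj
  Pool.Agent.H914.WeilCohomology
open Pool.Agent.Y121.AHS Pool.Agent.N211.TP2 Pool.Agent.N211.TP3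
open Pool.Agent.Y133.Half (pw)

section Lin

variable {E Γ H V : Type} [Field E] [CharZero E] [Group Γ] [AddCommGroup H] [Module E H]
  [AddCommGroup V] [Module E V]

/-- Polynomials without a common complex root. -/
lemma isCoprime_of_roots {P Q : Polynomial ℚ}
    (h : ∀ z : ℂ, Polynomial.aeval z P = 0 → Polynomial.aeval z Q ≠ 0) : IsCoprime P Q := by
  by_contra hc
  have h1 : ¬ IsUnit (EuclideanDomain.gcd P Q) := fun hu =>
    hc (EuclideanDomain.gcd_isUnit_iff.1 hu)
  obtain ⟨z, hz⟩ : ∃ z : ℂ, Polynomial.aeval z (EuclideanDomain.gcd P Q) = 0 := by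
    have h2 : (EuclideanDomain.gcd P Q).degree ≠ 0 := by
      intro h3
      exact h1 (Polynomial.isUnit_iff_degree_eq_zero.2 h3)
    obtain ⟨z, hz⟩ := IsAlgClosed.exists_aeval_eq_zero ℂ (EuclideanDomain.gcd P Q) h2
    exact ⟨z, hz⟩
  obtain ⟨a, ha⟩ := EuclideanDomain.gcd_dvd_left P Q
  obtain ⟨b, hb⟩ := EuclideanDomain.gcd_dvd_right P Q
  refine h z ?_ ?_
  · rw [ha, map_mul, hz, zero_mul]
  · rw [hb, map_mul, hz, zero_mul]

lemma abs_root {q j m : ℕ} (hm : 0 < m) {z : ℂ} (hz : z ^ m = ((q : ℂ) ^ j) ^ m) :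
    ‖z‖ = (q : ℝ) ^ j := by
  have h1 := congrArg (fun w : ℂ => ‖w‖) hz
  simp only [norm_pow, Complex.norm_natCast] at h1
  exact (pow_left_inj₀ (norm_nonneg z) (by positivity) hm.ne').1 h1

/-- The Tate classes are restrictions. -/
lemma mem_range_of_tate {F : Module.End E V} {F' : Module.End E H} {r : H →ₗ[E] V}
    (hr : ∀ x, r (F' x) = F (r x)) {D : Submodule E H} (hD : ∀ x ∈ D, F' x ∈ D) {q j m : ℕ}
    (hm : 0 < m) {Q : Polynomial ℤ}
    (hQ : ∀ z : ℂ, Polynomial.aeval z Q = 0 → (q : ℝ) ^ j < ‖z‖)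
    (hv : ∀ v, ∃ x ∈ D, r x = Polynomial.aeval F Q v) {v : V}
    (h : (F ^ m) v = (((q : E) ^ j) ^ m) • v) : ∃ x ∈ D, r x = v := by
  obtain ⟨P, hP⟩ : ∃ P : Polynomial ℚ, P = Polynomial.X ^ m - Polynomial.C (((q : ℚ) ^ j) ^ m) :=
    ⟨_, rfl⟩
  obtain ⟨a, b, hab⟩ := isCoprime_of_roots (P := P) (Q := Q.map (Int.castRingHom ℚ)) (by
    intro z hz hz'
    rw [hP, map_sub, map_pow, Polynomial.aeval_X, Polynomial.aeval_C, sub_eq_zero] at hz
    have h1 : ‖z‖ = (q : ℝ) ^ j := abs_root hm (hz.trans (by push_cast; rfl))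
    have h2 : Polynomial.aeval z Q = 0 := by
      rw [← hz', Polynomial.aeval_def, Polynomial.aeval_def, Polynomial.eval₂_map]
      congr 1
    exact absurd (hQ z h2) (by rw [h1]; exact lt_irrefl _))
  obtain ⟨i, hi⟩ : ∃ i : ℚ →+* E, i = Rat.castHom E := ⟨_, rfl⟩
  have h1 := congrArg (fun p : Polynomial ℚ => Polynomial.aeval F (p.map i) v) hab
  have h2 : Polynomial.aeval F (P.map i) v = 0 := by
    rw [hP, Polynomial.map_sub, Polynomial.map_pow, Polynomial.map_X, Polynomial.map_C, map_sub,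
      map_pow, Polynomial.aeval_X, Polynomial.aeval_C, LinearMap.sub_apply, h,
      Module.algebraMap_end_apply, hi]
    simp
  have h3 : Polynomial.aeval F ((Q.map (Int.castRingHom ℚ)).map i) v = Polynomial.aeval F Q v := by
    congr 1
    rw [Polynomial.map_map, Polynomial.aeval_def, Polynomial.aeval_def, Polynomial.eval₂_map]
    congr 1
    exact RingHom.ext_int _ _
  simp only [Polynomial.map_add, Polynomial.map_mul, Polynomial.map_one, map_add, map_mul,
    map_one, LinearMap.add_apply, Module.End.mul_apply, Module.End.one_apply] at h1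
  rw [h2, map_zero, zero_add, h3] at h1
  obtain ⟨x, hx, hx'⟩ := hv v
  rw [← hx'] at h1
  have h4 : ∀ (p : Polynomial E) (y : H), r (Polynomial.aeval F' p y) =
      Polynomial.aeval F p (r y) := by
    intro p
    induction p using Polynomial.induction_on' with
    | add p p' hp hp' =>
      intro y
      rw [map_add, LinearMap.add_apply, map_add, hp, hp', map_add, LinearMap.add_apply]
    | monomial n c =>
      intro y
      rw [Polynomial.aeval_monomial, Polynomial.aeval_monomial, Module.End.mul_apply,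
        Module.End.mul_apply, Module.algebraMap_end_apply, Module.algebraMap_end_apply, map_smul]
      congr 1
      induction n with
      | zero => rw [pow_zero, pow_zero, Module.End.one_apply, Module.End.one_apply]
      | succ n ih =>
        rw [pow_succ', pow_succ', Module.End.mul_apply, Module.End.mul_apply, hr, ih]
  have h5 : ∀ (p : Polynomial E) (y : H), y ∈ D → Polynomial.aeval F' p y ∈ D := by
    intro p
    induction p using Polynomial.induction_on' with
    | add p p' hp hp' =>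
      intro y hy
      rw [map_add, LinearMap.add_apply]
      exact D.add_mem (hp y hy) (hp' y hy)
    | monomial n c =>
      intro y hy
      rw [Polynomial.aeval_monomial, Module.End.mul_apply, Module.algebraMap_end_apply]
      refine D.smul_mem _ ?_
      induction n with
      | zero => rwa [pow_zero, Module.End.one_apply]
      | succ n ih =>
        rw [pow_succ', Module.End.mul_apply]
        exact hD _ ih
  exact ⟨Polynomial.aeval F' (b.map i) x, h5 _ _ hx, by rw [h4, h1]⟩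

/-- Invariant classes of a quotient of a semisimple representation can be lifted. -/
lemma lift_inv {ρ : Representation E Γ H} {σ : Γ → V → V} {r : H →ₗ[E] V} {Δ : Subgroup Γ}
    {D : Submodule E H} {c : Γ → E} (hr : ∀ g x, r (ρ g x) = σ g (r x))
    (hs : BT.IsSemisimpleOn ρ Δ D) (hD : ∀ g ∈ Δ, ∀ x ∈ D, ρ g x ∈ D) {v : V}
    (hv : ∀ g ∈ Δ, σ g v = c g • v) {x : H} (hx : x ∈ D) (hxv : r x = v) :
    ∃ z ∈ D, r z = v ∧ ∀ g ∈ Δ, ρ g z = c g • z := by
  obtain ⟨U', h1, h2, h3, h4⟩ := hs (LinearMap.ker r ⊓ D) inf_le_right (by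
    intro g hg y hy
    refine ⟨?_, hD g hg y hy.2⟩
    have h5 : r y = 0 := hy.1
    have h6 : σ g 0 = 0 := by
      rw [← map_zero r, ← hr, map_zero]
    rw [SetLike.mem_coe, LinearMap.mem_ker, hr, h5, h6])
  have h5 : x ∈ LinearMap.ker r ⊓ D ⊔ U' := by rw [h4]; exact hx
  obtain ⟨y, hy, z, hz, hyz⟩ := Submodule.mem_sup.1 h5
  have h6 : r z = v := by
    rw [← hxv, ← hyz, map_add, (LinearMap.mem_ker.1 hy.1), zero_add]
  refine ⟨z, h1 hz, h6, fun g hg => ?_⟩
  have h7 : ρ g z - c g • z ∈ LinearMap.ker r ⊓ D ⊓ U' := by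
    refine ⟨⟨?_, D.sub_mem (hD g hg z (h1 hz)) (D.smul_mem _ (h1 hz))⟩,
      U'.sub_mem (h2 g hg z hz) (U'.smul_mem _ hz)⟩
    rw [SetLike.mem_coe, LinearMap.mem_ker, map_sub, map_smul, hr, h6, hv g hg, sub_self]
  rw [h3] at h7
  exact sub_eq_zero.1 ((Submodule.mem_bot E).1 h7)

end Lin

variable {k : Type u} [Field k] {𝒱 : VarClass k} {ops : CycleOps 𝒱}
  {T : HodgeTheory ops} {E : Type} [Field E] [Algebra T.W.K E] {X A : 𝒱.Obj} {N : ℕ}
  {Γ : Type} [Group Γ] [TopologicalSpace Γ] {ψ : Bil T.W.K (T.W.H X)} {χ : Γ → E}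
  {ρ : ∀ n, Γ → PowH T E X n → PowH T E X n} {σA : Γ → PowH T E A 0 → PowH T E A 0}
  {σP : Γ → ProdH T E X A N → ProdH T E X A N}

open Pool.Agent.Y121.AH (hodgePred)
open Pool.Agent.Y133.Half (ClassPred)

/-- **The Tate conjecture for the open subvarieties of the powers from one product.** -/
theorem main2 [TopologicalSpace E] [IsTopologicalRing E] [T2Space E] [IsTopologicalGroup Γ]
    (hψ : IsPolarisation T X ψ) (hE : Nonempty (E →+* ℂ))
    (hG : IsGalois (cohOps T E ψ) χ ρ) (hA : IsArithmetic (cohOps T E ψ) χ ρ)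
    (hC : ∀ m j, ∀ x ∈ cycClasses T E X m j, IsTate (cohOps T E ψ) χ ρ j x)
    (hP : HasDualLines E (prodOps T E X A N) χ (ρ N) σA σP)
    (hT : TateForProduct (prodOps T E X A N) χ σP)
    (hN : productExponent (finrank T.W.K (T.W.H X)) ≤ N + 1) {n j : ℕ}
    {V : Type} [AddCommGroup V] [Module E V] {σ : Γ → V → V} {r : PowH T E X n → V}
    (hr : IsRestriction E ((cohOps T E ψ).deg n (2 * j)) χ (ρ n) σ r j) {v : V}
    (hv : ∃ Δ, IsEigen Δ (fun _ => 1) (fun g => χ g ^ j) σ v) :
    v ∈ Submodule.span E (r '' cycClasses T E X n j) := by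
  have hf : ∀ n j z, (pw X n).IsCyc j z → ∃ Δ : Subgroup Γ, Δ.FiniteIndex ∧ ∀ g ∈ Δ,
      rep hG n g (emL T.W E (T.W.cl (pw X n) z)) =
        twL (χ g) j (emL T.W E (T.W.cl (pw X n) z)) := by
    intro n j z hz
    obtain ⟨Δ, h1, -, h2⟩ := hC n j (emL T.W E (T.W.cl (pw X n) z)) ⟨z, hz, rfl⟩
    exact ⟨Δ, h1, fun g hg => h2 g hg⟩
  have hch : CharZero E := charZero_of_injective_algebraMap (algebraMap T.W.K E).injective
  obtain ⟨G, hGG⟩ : ∃ G, G = toG hG hf := ⟨_, rfl⟩
  have hA' := arith (h := hG) (hf := hf) hA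
  have key := MO.t_main (G := toG hG hf) (Q := MO.algPred T) hψ.conv respects hA' hE (fun Z c hc => by
      refine ClassPred.sp_ind (Q := MO.algPred T) (q := fun c => c ∈ (hodgePred (toH T)).sp Z)
        ?_ ?_ ?_ hc
      · rintro j _ ⟨z, hz, rfl⟩
        exact ClassPred.sp_of (Q := hodgePred (toH T)) (T.cyc _ j z hz)
      · exact Submodule.zero_mem _
      · intro a b ha hb
        exact Submodule.add_mem _ ha hb) (setup hP hT) (fun g => hP.one g)
      ⟨inferInstance, isOpen_univ⟩ (fun K hK => by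
        have h2 : (K.topologicalClosure).FiniteIndex :=
          Subgroup.finiteIndex_of_le K.le_topologicalClosure
        have h3 : IsOpen (K.topologicalClosure : Set Γ) :=
          K.topologicalClosure.isOpen_of_isClosed_of_finiteIndex K.isClosed_topologicalClosure
        exact ⟨K.topologicalClosure, ⟨h2, h3⟩, fun j x hx => inv_closure hA' hx⟩) hN
  obtain ⟨hTate, hSS⟩ := key
  have hSS' := hSS (by
    rintro n j _ ⟨z, hz, rfl⟩
    exact (toG hG hf).fix n j z hz)
  obtain ⟨Δ, hv⟩ := hv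
  obtain ⟨hΔ, hΔo, hv⟩ := isEigen_one.1 hv
  -- linear versions
  let rl : HL T.W E (pw X n) →ₗ[E] V :=
    { toFun := fun x => r x
      map_add' := fun x y => hr.lin.1 x y
      map_smul' := fun c x => hr.lin.2 c x }
  obtain ⟨q, f, Q, hq, hf', hQ, hQv⟩ := hr.weights
  let F : Module.End E V :=
    { toFun := fun x => σ f x
      map_add' := fun x y => (hr.linV f).1 x y
      map_smul' := fun c x => (hr.linV f).2 c x }
  have hFm : ∀ (m : ℕ) (x : V), (F ^ m) x = σ (f ^ m) x := by
    intro m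
    induction m with
    | zero =>
      intro x
      rw [pow_zero, pow_zero, Module.End.one_apply, hr.comp.1]
    | succ m ih =>
      intro x
      rw [pow_succ, pow_succ, Module.End.mul_apply, ih, hr.comp.2]
      rfl
  obtain ⟨m, hm, -, hmem⟩ := Subgroup.exists_pow_mem_of_index_ne_zero hΔ.index_ne_zero f
  have hdegst : ∀ g, ∀ x ∈ grL T.W E (pw X n) (2 * j), (toG hG hf).ρ n g x ∈
      grL T.W E (pw X n) (2 * j) := fun g x hx => (toG hG hf).deg n g _ x hx
  have hχ : ∀ m : ℕ, χ (f ^ m) = (q : E) ^ m := by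
    intro m
    have h1 : ((toG hG hf).χ (f ^ m) : E) = ((toG hG hf).χ f : E) ^ m := by
      rw [map_pow, Units.val_pow_eq_pow_val]
    exact h1.trans (congrArg (· ^ m) hf')
  obtain ⟨x, hx, hxv⟩ := mem_range_of_tate (F := F) (F' := (toG hG hf).ρ n f) (r := rl)
    (fun x => hr.equi f x) (D := grL T.W E (pw X n) (2 * j)) (hdegst f) hm hQ (fun v => by
      obtain ⟨x, hx, hxv⟩ := hQv v
      refine ⟨x, hx, ?_⟩
      refine Eq.trans hxv ?_
      rw [Polynomial.aeval_eq_sum_range, LinearMap.sum_apply]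
      refine Finset.sum_congr rfl fun m _ => ?_
      rw [LinearMap.smul_apply, hFm, Int.cast_smul_eq_zsmul]) (v := v) (by
      rw [hFm, hv _ hmem, hχ, ← pow_mul, ← pow_mul, mul_comm])
  obtain ⟨z, hz, hzv, hzi⟩ := lift_inv (ρ := (toG hG hf).ρ n) (σ := σ) (r := rl) (Δ := Δ)
    (c := fun g => χ g ^ j) (fun g x => hr.equi g x) (hSS' n Δ hΔ (2 * j))
    (fun g _ => hdegst g) hv hx hxv
  have hz2 := hTate n Δ hΔ j z hz hzi
  rw [← hzv]
  refine Submodule.span_induction (p := fun z _ => rl z ∈ Submodule.span E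
    (r '' cycClasses T E X n j)) ?_ ?_ ?_ ?_ hz2
  · rintro _ ⟨_, ⟨w, hw, rfl⟩, rfl⟩
    exact Submodule.subset_span ⟨_, ⟨w, hw, rfl⟩, rfl⟩
  · rw [map_zero]; exact Submodule.zero_mem _
  · intro x y _ _ hx hy; rw [map_add]; exact Submodule.add_mem _ hx hy
  · intro c x _ hx; rw [map_smul]; exact Submodule.smul_mem _ _ hx

end Pool.Agent.N211.TP4
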