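import Pool.Agent.N211.TP4.Defs

/-!
# Open subvarieties: definitions
-/

namespace Pool.Agent.N211.TP4

open Pool.Agent.N211.TP2

/-- Let `H` be the cohomology of a smooth projective variety, on which the Galois group acts by `ρ`,
and let `V` be the cohomology of degree `2 j` of an open subvariety, on which it acts by `σ`. The map
`r` from `H` to `V` is linear and equivariant. An element `f` of the Galois group with `χ f = q`
satisfies on the cokernel of `r`, restricted to the classes of degree `2 j`, an equation with integral
coefficients all of whose complex roots have absolute values greater than `q ^ j`. (For a geometric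
Frobenius element at a place of good reduction this is Deligne's theorem: the weights of the cokernel
are at least `2 j + 1`.) -/
structure IsRestriction (E : Type) {Γ H V : Type} [Field E] [Group Γ] [AddCommGroup H] [Module E H]
    [AddCommGroup V] [Module E V] (deg : H → Prop) (χ : Γ → E) (ρ : Γ → H → H) (σ : Γ → V → V)
    (r : H → V) (j : ℕ) : Prop where
  lin : (∀ x y, r (x + y) = r x + r y) ∧ ∀ (c : E) x, r (c • x) = c • r x
  linV : ActsLinearly E σ
  comp : (∀ x, σ 1 x = x) ∧ ∀ g h x, σ (g * h) x = σ g (σ h x)
  equi : ∀ g x, r (ρ g x) = σ g (r x)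
  weights : ∃ (q : ℕ) (f : Γ) (Q : Polynomial ℤ), 1 < q ∧ χ f = q ∧
    (∀ z : ℂ, Polynomial.aeval z Q = 0 → (q : ℝ) ^ j < ‖z‖) ∧ ∀ v, ∃ x, deg x ∧
      r x = ∑ m ∈ Finset.range (Q.natDegree + 1), (Q.coeff m : E) • σ (f ^ m) v

/-- The exponent. -/
def productExponent (b : ℕ) : ℕ := exponent b * b ^ exponent b

end Pool.Agent.N211.TP4
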